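import Pool.Agent.Work.MP_c8e9c8_co.Core

set_option autoImplicit false

namespace Pool.Agent.Results.MP_c8e9c8_co.CookieAP

open Pool.Agent.Work.MP_c8e9c8_co

/-- The position reached from `X` by choosing a heap of size `h`: that heap is removed and every
other heap of positive size is lowered by `1` (a heap of size `0` stays at `0`). -/
def move (X : Multiset ℕ) (h : ℕ) : Multiset ℕ := (X.erase h).map (fun x => x - 1)

theorem card_move_lt {X : Multiset ℕ} {h : ℕ} (hX : h ∈ X) :
    Multiset.card (move X h) < Multiset.card X := by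
  unfold move
  rw [Multiset.card_map, Multiset.card_erase_of_mem hX]
  have : 0 < Multiset.card X := Multiset.card_pos_iff_exists_mem.mpr ⟨h, hX⟩
  exact Nat.pred_lt (by omega)

/-- The Grundy value of a position of the cookie game: the least natural number that is not the
Grundy value of a position reachable in one move (the choice of a heap of positive size). -/
noncomputable def grundy (X : Multiset ℕ) : ℕ :=
  sInf {v : ℕ | ∀ h : ℕ, ∀ _ : h ∈ X, 0 < h → grundy (move X h) ≠ v}
termination_by Multiset.card X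
decreasing_by exact card_move_lt (by assumption)

/-- The position `A(a, n)` with heaps `a, a + 1, …, a + n - 1`. -/
def ap (a n : ℕ) : Multiset ℕ := (Multiset.range n).map (fun i => a + i)

/-- The function `g` of the problem. -/
def g (m : ℕ) : ℕ :=
  if m % 6 = 1 ∨ m % 6 = 4 then 0
  else if m % 6 = 2 ∨ m % 6 = 5 then 1
  else if m % 6 = 3 then 2
  else 3

/-- tail counts -/
def cnt (X : Multiset ℕ) (j : ℕ) : ℕ := X.countP (fun x => j ≤ x)

/-- positive heaps are pairwise distinct -/
def Dist (X : Multiset ℕ) : Prop := ∀ j, 1 ≤ j → X.count j ≤ 1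

theorem cnt_succ (X : Multiset ℕ) (j : ℕ) : cnt X j = cnt X (j + 1) + X.count j := by
  unfold cnt
  induction X using Multiset.induction_on with
  | empty => simp
  | cons a X ih =>
    rw [Multiset.countP_cons, Multiset.countP_cons, Multiset.count_cons, ih]
    split_ifs <;> omega

theorem pos_cnt {X : Multiset ℕ} (hX : Dist X) : Pos (cnt X) where
  anti j _ := by rw [cnt_succ X j]; omega
  step j hj := by rw [cnt_succ X j]; have := hX j hj; omega
  fin := by
    refine ⟨X.sum + 1, fun j hj => ?_⟩
    unfold cnt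
    rw [Multiset.countP_eq_zero]
    intro x hx hjx
    have := Multiset.le_sum_of_mem hx
    omega

theorem cnt_move {X : Multiset ℕ} {h : ℕ} (hX : h ∈ X) {j : ℕ} (hj : 1 ≤ j) :
    cnt (move X h) j + (if j + 1 ≤ h then 1 else 0) = cnt X (j + 1) := by
  unfold cnt move
  rw [Multiset.countP_map]
  conv_rhs => rw [← Multiset.cons_erase hX]
  rw [Multiset.countP_cons, ← Multiset.countP_eq_card_filter]
  congr 1
  apply Multiset.countP_congr rfl
  intro x _
  simp only [eq_iff_iff]
  omega

theorem opt_move {X : Multiset ℕ} {h : ℕ} (hD : Dist X) (hX : h ∈ X) (h0 : 0 < h) :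
    Opt (cnt X) (cnt (move X h)) h where
  one := h0
  mem := by
    rw [cnt_succ X h]
    have h1 := hD h h0
    have h2 : 0 < X.count h := Multiset.count_pos.mpr hX
    omega
  lt j hj hjh := by
    have := cnt_move hX hj
    rw [if_pos (by omega)] at this
    exact this
  ge j hjh := by
    have := cnt_move hX (j := j) (by omega)
    rw [if_neg (by omega)] at this
    exact this

theorem dist_move {X : Multiset ℕ} {h : ℕ} (hD : Dist X) (hX : h ∈ X) : Dist (move X h) := by
  intro j hj
  have h1 := cnt_succ (move X h) j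
  have h2 := cnt_move hX hj
  have h3 := cnt_move hX (j := j + 1) (by omega)
  have h4 := cnt_succ X (j + 1)
  have h5 := hD (j + 1) (by omega)
  have h6 : (move X h).count j ≤ X.count (j + 1) := by
    by_cases h7 : j + 1 + 1 ≤ h
    · rw [if_pos h7] at h3
      rw [if_pos (by omega)] at h2
      omega
    · rw [if_neg h7] at h3
      by_cases h8 : j + 1 ≤ h
      · rw [if_pos h8] at h2
        omega
      · rw [if_neg h8] at h2
        omega
  omega

theorem mem_of_drop {X : Multiset ℕ} {i : ℕ} (h : cnt X i = cnt X (i + 1) + 1) : i ∈ X := by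
  rw [cnt_succ X i] at h
  exact Multiset.count_pos.mp (by omega)

/-- computing the least excluded value -/
theorem grundy_eq {X : Multiset ℕ} {v : ℕ}
    (h1 : ∀ h ∈ X, 0 < h → grundy (move X h) ≠ v)
    (h2 : ∀ w < v, ∃ h ∈ X, 0 < h ∧ grundy (move X h) = w) : grundy X = v := by
  rw [grundy]
  apply le_antisymm
  · exact Nat.sInf_le h1
  · by_contra hc
    push Not at hc
    have hne : {v : ℕ | ∀ h : ℕ, ∀ _ : h ∈ X, 0 < h → grundy (move X h) ≠ v}.Nonempty := ⟨v, h1⟩
    have hmem := Nat.sInf_mem hne
    obtain ⟨h, hX, h0, hw⟩ := h2 _ hc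
    exact hmem h hX h0 hw

/-- the Grundy value of every position whose positive heaps are pairwise distinct -/
theorem grundy_formula (k : ℕ) : ∀ X : Multiset ℕ, Multiset.card X = k → Dist X →
    (C0 (cnt X) → grundy X = 0) ∧ (C1 (cnt X) → grundy X = 1) ∧ (C2 (cnt X) → grundy X = 2) ∧
      (C3 (cnt X) → grundy X = 3) := by
  induction k using Nat.strong_induction_on with
  | _ k ih =>
    intro X hk hD
    have hP := pos_cnt hD
    have hopt : ∀ h ∈ X, 0 < h → Opt (cnt X) (cnt (move X h)) h :=
      fun h hX h0 => opt_move hD hX h0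
    have hval : ∀ h ∈ X, 0 < h →
        (C0 (cnt (move X h)) → grundy (move X h) = 0) ∧
        (C1 (cnt (move X h)) → grundy (move X h) = 1) ∧
        (C2 (cnt (move X h)) → grundy (move X h) = 2) ∧
        (C3 (cnt (move X h)) → grundy (move X h) = 3) := fun h hX h0 =>
      ih _ (by rw [← hk]; exact card_move_lt hX) _ rfl (dist_move hD hX)
    have htri : ∀ h ∈ X, 0 < h → C0 (cnt (move X h)) ∨ C1 (cnt (move X h)) ∨
        C2 (cnt (move X h)) ∨ C3 (cnt (move X h)) := fun h hX h0 =>
      trichotomy (pos_cnt (dist_move hD hX))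
    have hex : ∀ Q : (ℕ → ℕ) → Prop,
        (∃ i, 1 ≤ i ∧ cnt X i = cnt X (i + 1) + 1 ∧ ∀ N', Opt (cnt X) N' i → Q N') →
        ∃ h ∈ X, 0 < h ∧ Q (cnt (move X h)) := by
      rintro Q ⟨i, hi1, hi2, hi3⟩
      have hX := mem_of_drop hi2
      exact ⟨i, hX, hi1, hi3 _ (hopt i hX hi1)⟩
    refine ⟨fun h0 => ?_, fun h1 => ?_, fun h2 => ?_, fun h3 => ?_⟩
    · apply grundy_eq
      · intro h hX hpos
        have hn := not_C0_of_C0 hP (hopt h hX hpos) h0
        obtain ⟨v0, v1, v2, v3⟩ := hval h hX hpos
        rcases htri h hX hpos with c | c | c | c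
        · exact absurd c hn
        · rw [v1 c]; omega
        · rw [v2 c]; omega
        · rw [v3 c]; omega
      · intro w hw; omega
    · apply grundy_eq
      · intro h hX hpos
        have hn := not_C1_of_C1 hP (hopt h hX hpos) h1
        obtain ⟨v0, v1, v2, v3⟩ := hval h hX hpos
        rcases htri h hX hpos with c | c | c | c
        · rw [v0 c]; omega
        · exact absurd c hn
        · rw [v2 c]; omega
        · rw [v3 c]; omega
      · intro w hw
        obtain ⟨h, hX, hpos, c⟩ := hex _ (exists_C0_of_C1 hP h1)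
        refine ⟨h, hX, hpos, ?_⟩
        rw [(hval h hX hpos).1 c]; omega
    · have h2' := h2
      obtain ⟨r, d, hU, hd⟩ := h2
      obtain ⟨e0, e1⟩ := CU_even_rank hP hU.1
      apply grundy_eq
      · intro h hX hpos
        have hn := not_C2_of_C2 hP (hopt h hX hpos) h2'
        obtain ⟨v0, v1, v2, v3⟩ := hval h hX hpos
        rcases htri h hX hpos with c | c | c | c
        · rw [v0 c]; omega
        · rw [v1 c]; omega
        · exact absurd c hn
        · rw [v3 c]; omega
      · intro w hw
        rcases Nat.lt_or_ge w 1 with h4 | h4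
        · obtain ⟨h, hX, hpos, c⟩ := hex _ e0
          refine ⟨h, hX, hpos, ?_⟩
          rw [(hval h hX hpos).1 c]; omega
        · obtain ⟨h, hX, hpos, c⟩ := hex _ e1
          refine ⟨h, hX, hpos, ?_⟩
          rw [(hval h hX hpos).2.1 c]; omega
    · have h3' := h3
      obtain ⟨r, d, hU, hd⟩ := h3
      obtain ⟨e0, e1⟩ := CU_even_rank hP hU.1
      apply grundy_eq
      · intro h hX hpos
        have hn := not_C3_of_C3 hP (hopt h hX hpos) h3'
        obtain ⟨v0, v1, v2, v3⟩ := hval h hX hpos
        rcases htri h hX hpos with c | c | c | c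
        · rw [v0 c]; omega
        · rw [v1 c]; omega
        · rw [v2 c]; omega
        · exact absurd c hn
      · intro w hw
        rcases Nat.lt_or_ge w 1 with h4 | h4
        · obtain ⟨h, hX, hpos, c⟩ := hex _ e0
          refine ⟨h, hX, hpos, ?_⟩
          rw [(hval h hX hpos).1 c]; omega
        · rcases Nat.lt_or_ge w 2 with h5 | h5
          · obtain ⟨h, hX, hpos, c⟩ := hex _ e1
            refine ⟨h, hX, hpos, ?_⟩
            rw [(hval h hX hpos).2.1 c]; omega
          · obtain ⟨h, hX, hpos, c⟩ := hex _ (exists_C2_of_C3 hP h3')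
            refine ⟨h, hX, hpos, ?_⟩
            rw [(hval h hX hpos).2.2.1 c]; omega

theorem cnt_ap (a n j : ℕ) : cnt (ap a n) j = n - (j - a) := by
  unfold cnt ap
  rw [Multiset.countP_map, ← Multiset.countP_eq_card_filter]
  induction n with
  | zero => simp
  | succ n ih =>
    rw [Multiset.range_succ, Multiset.countP_cons, ih]
    split_ifs <;> omega

theorem dist_ap (a n : ℕ) : Dist (ap a n) := by
  intro j _
  have h := cnt_succ (ap a n) j
  rw [cnt_ap, cnt_ap] at h
  omega

/-- For all `a ≥ 1` and `n ≥ 2` with `n ≥ 2 a - 2`, the Grundy value of the position with heaps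
`a, a + 1, …, a + n - 1` is `g (a + n)`. -/
theorem result (a n : ℕ) (ha : 1 ≤ a) (hn : 2 ≤ n) (h : 2 * a ≤ n + 2) :
    grundy (ap a n) = g (a + n) := by
  obtain ⟨f0, f1, f2, f3⟩ := grundy_formula _ (ap a n) rfl (dist_ap a n)
  have hc := cnt_ap a n
  rcases (by omega : (a + n) % 3 = 1 ∨ (a + n) % 3 = 2 ∨ (a + n) % 3 = 0) with hm | hm | hm
  · obtain ⟨k, hk⟩ : ∃ k, a + n = 3 * k + 1 := ⟨(a + n) / 3, by omega⟩
    rw [f0]
    · unfold g
      rw [if_pos (by omega)]
    · refine ⟨k, fun j hj hjk => ?_, 2 * k + 1, by omega, le_rfl, ?_⟩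
      · rw [hc]; omega
      · rw [hc]; omega
  · obtain ⟨k, hk⟩ : ∃ k, a + n = 3 * k + 2 := ⟨(a + n) / 3, by omega⟩
    rw [f1]
    · unfold g
      rw [if_neg (by omega), if_pos (by omega)]
    · refine ⟨k, fun j hj hjk => ?_, 2 * k + 1, by omega, le_rfl, ?_⟩
      · rw [hc]; omega
      · rw [hc]; omega
  · obtain ⟨k, hk⟩ : ∃ k, a + n = 3 * k := ⟨(a + n) / 3, by omega⟩
    have hU : CU (cnt (ap a n)) (2 * k) k := by
      refine ⟨⟨fun j hj hjk => ?_, 2 * k, by omega, le_rfl, ?_⟩, by omega, ?_, ?_⟩
      · rw [hc]; omega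
      · rw [hc]; omega
      · rw [hc]; omega
      · rw [hc]; omega
    rcases Nat.even_or_odd k with he | ho
    · rw [f3 ⟨_, _, hU, he⟩]
      obtain ⟨l, hl⟩ := he
      unfold g
      rw [if_neg (by omega), if_neg (by omega), if_neg (by omega)]
    · rw [f2 ⟨_, _, hU, ho⟩]
      obtain ⟨l, hl⟩ := ho
      unfold g
      rw [if_neg (by omega), if_neg (by omega), if_pos (by omega)]

end Pool.Agent.Results.MP_c8e9c8_co.CookieAP
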